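import Pool.Agent.SPH.B3.Ok
import Pool.Agent.SPH.E7.Tab
import Pool.Agent.SPH.RG.Emb

/-!
# Project SPH, type E7: the embedding of the germ of type B3

The images of the simple elements of type `B_3`: the elements fixed by `τ ^ 3`.
-/

set_option maxRecDepth 10000

namespace Pool.Agent.SPH.E7

open RG

/-- the images -/
def jd : JD where
  jl := [
    ([], [0, 1, 2, 3, 4, 5, 6]),
    ([3, 6, 15], [0, 8, 12, 30]),
    ([10, 42], [0, 3, 6, 15, 16]),
    ([2, 22], [1, 3, 4, 6, 33]),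
    ([4, 26, 38], [0, 2, 10, 22]),
    ([11, 54], [2, 4, 22, 26, 38]),
    ([8, 33], [0, 4, 5, 23, 35]),
    ([5, 9, 35], [2, 8, 11, 33]),
    ([12, 40], [5, 8, 9, 33, 35]),
    ([0, 16], [2, 3, 5, 6, 29]),
    ([2, 4, 22, 26, 38], [10, 42]),
    ([1, 3, 4, 6, 33], [0, 16]),
    ([2, 8, 11, 33], [4, 26, 38]),
    ([5, 8, 9, 33, 35], [11, 54]),
    ([2, 3, 5, 6, 29], [8, 33]),
    ([0, 3, 6, 15, 16], [12, 40]),
    ([0, 2, 10, 22], [3, 6, 15]),
    ([0, 4, 5, 23, 35], [2, 22]),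
    ([0, 8, 12, 30], [5, 9, 35]),
    ([0, 1, 2, 3, 4, 5, 6], [])]
  k := 3
  r := 3

theorem jd_ok : jd.Ok rd B3.ad where
  c0 := by decide +kernel
  cI := by decide +kernel
  cA := by decide +kernel

end Pool.Agent.SPH.E7
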