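import Pool.Agent.SPH.E7.Lc7

/-!
# Project SPH: the three commuting atoms of type E7
-/

namespace Pool.Agent.SPH.E7

open RG RG.RD Pool.Agent.Helper7.AG

theorem k_lo : rd.loB cs gs ce = true := by decide +kernel

theorem k_rwC : rd.rwB rwC [3, 15] [15, 3] = true := by decide +kernel

theorem k_rwE : rd.rwB rwE ([3] ++ [0, 3, 6, 15, 16]) ([0, 3, 6, 15, 16] ++ [3]) = true := by
  decide +kernel

theorem k_rwH : rd.rwB rwH ([3] ++ ([1, 3, 4, 6, 33] ++ ([2, 22] ++ [0, 16])))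
    ([1, 3, 4, 6, 33] ++ ([2, 22] ++ ([0, 16] ++ [35]))) = true := by decide +kernel

theorem k_ki : rd.kiB [3, 15, 6] [0, 8, 12, 30] [35, 9, 5] [0, 1, 2, 3, 4, 5, 6] = true := by
  decide +kernel

theorem k_kb : rd.kiB [3, 15] [0, 5, 6, 8, 30] [35, 9] [0, 1, 2, 3, 4, 5, 6] = true := by
  decide +kernel

theorem k_fa : rd.fxB 3 [3, 15, 6] [0, 8, 12, 30] = true := by decide +kernel

theorem k_fe : rd.fxB 3 [0, 3, 6, 15, 16] [12, 40] = true := by decide +kernel

theorem k_me : RG.RD.mvB rd 3 [0, 3, 6, 15, 16] [12, 40] = true := by decide +kernel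

theorem k_f1 : rd.fxB 3 [1, 3, 4, 6, 33] [0, 16] = true := by decide +kernel

theorem k_f2 : rd.fxB 3 [2, 22] [1, 3, 4, 6, 33] = true := by decide +kernel

theorem k_f3 : rd.fxB 3 [0, 16] [2, 3, 5, 6, 29] = true := by decide +kernel

theorem k_ue : rd.fuB [0, 3, 6, 15, 16] [12, 40] = true := by decide +kernel

theorem k_u1 : rd.fuB [1, 3, 4, 6, 33] [0, 16] = true := by decide +kernel

theorem k_u2 : rd.fuB [2, 22] [1, 3, 4, 6, 33] = true := by decide +kernel

theorem k_u3 : rd.fuB [0, 16] [2, 3, 5, 6, 29] = true := by decide +kernel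

theorem k_ua : rd.fuB [3, 15, 6] [0, 8, 12, 30] = true := by decide +kernel

theorem k_ub : rd.fuB [3, 15] [0, 5, 6, 8, 30] = true := by decide +kernel

theorem k_t1 : itN rd.ta 3 3 = 15 := by decide +kernel

theorem k_t2 : itN rd.ta 3 15 = 6 := by decide +kernel

theorem k_t3 : itN rd.ta 3 6 = 3 := by decide +kernel

theorem k_tt : rd.ta 3 = 35 := by decide +kernel

theorem k_m2 : rd.mvL 2 [0, 16] = [22, 28] := by decide +kernel

theorem k_m1 : [1, 3, 4, 6, 33].map rd.ta = [29, 35, 3, 5, 22] := by decide +kernel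

theorem k_run : Gen.run gd.nN (fun x => x) (gd.le rd) gd.tm (gd.fx1 rd 3 3) gz 0 gl 0 0 = true := by
  decide +kernel

theorem k_fin : gd.fin1 rd gz = true := by decide +kernel

theorem k_x3 : rd.exB [3] = true := by decide +kernel

variable (hj : (rd.rsys rd_ok).L.HasJoin)

theorem loops {x : Sim hj} (h0 : x ≠ ⊥)
    (c1 : (LG.germ hj).fs [el hj [0, 3, 6, 15, 16]] x ≤ x)
    (c2 : (LG.germ hj).fs [(LG.germ hj).K (el hj [0, 3, 6, 15, 16])] x ≤ (LG.germ hj).tau x)
    (c3 : (LG.germ hj).fs [el hj [1, 3, 4, 6, 33], el hj [2, 22], el hj [0, 16]] x ≤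
      (LG.germ hj).tau x)
    (c4 : (LG.germ hj).fs [(LG.germ hj).K (el hj [0, 16]),
      (LG.germ hj).tau ((LG.germ hj).K (el hj [2, 22])),
      (LG.germ hj).tau^[2] ((LG.germ hj).K (el hj [1, 3, 4, 6, 33]))] ((LG.germ hj).tau x) ≤
        (LG.germ hj).tau^[3] x) :
    el hj [3] ≤ x ∨ el hj [15] ≤ x ∨ el hj [6] ≤ x ∨
      (LG.germ hj).K (el hj [3, 15, 6]) ≤ x := by
  rw [K_el hj k_ue] at c2
  rw [K_el hj k_u3, K_el hj k_u2, K_el hj k_u1, (tau_el hj (fu_ex k_u2).2.1).2, k_m1,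
    (tau_iter_el hj (fu_ex k_u1).2.1 2).2, k_m2] at c4
  have hx : ∀ c ∈ cs, (LG.germ hj).fs (c.2.2.map (el hj)) ((LG.germ hj).tau^[c.1] x) ≤
      (LG.germ hj).tau^[c.2.1] x := by
    intro c hc
    unfold cs at hc
    rcases List.mem_cons.1 hc with rfl | hc
    · exact c1
    rcases List.mem_cons.1 hc with rfl | hc
    · exact c2
    rcases List.mem_cons.1 hc with rfl | hc
    · exact c3
    rcases List.mem_cons.1 hc with rfl | hc
    · exact c4
    · exact absurd hc List.not_mem_nil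
  obtain ⟨g, hg, h1⟩ := lo_spec hj k_lo h0 hx
  unfold gs at hg
  rcases List.mem_cons.1 hg with rfl | hg
  · exact Or.inl (h1 3 (by simp))
  rcases List.mem_cons.1 hg with rfl | hg
  · exact Or.inr (Or.inl (h1 15 (by simp)))
  rcases List.mem_cons.1 hg with rfl | hg
  · exact Or.inr (Or.inr (Or.inl (h1 6 (by simp))))
  rcases List.mem_cons.1 hg with rfl | hg
  · refine Or.inr (Or.inr (Or.inr ?_))
    rw [K_el hj k_ua, el_le hj (fu_ex k_ua).2.1]
    exact h1
  · exact absurd hg List.not_mem_nil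

variable {G : Type*} [Group G] [Lattice G] (F : Frame (LG.germ hj) G)

/-- the three commuting atoms `3`, `15`, `6` -/
theorem bk7 : F.Bk7 (el hj [3]) (el hj [15]) (el hj [6]) (el hj [3, 15, 6]) (el hj [3, 15])
    (el hj [0, 3, 6, 15, 16]) (el hj [1, 3, 4, 6, 33]) (el hj [2, 22]) (el hj [0, 16]) where
  t1 := by rw [(el_tau hj (by decide) 3).2, k_t1]
  t2 := by rw [(el_tau hj (by decide) 3).2, k_t2]
  t3 := by rw [(el_tau hj (by decide) 3).2, k_t3]
  ta := fx_el hj k_fa
  te := fx_el hj k_fe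
  te' := moved_el rd_ok hj k_ue k_me 1 (by norm_num) (by norm_num)
  ty1 := fx_el hj k_f1
  ty2 := fx_el hj k_f2
  ty3 := fx_el hj k_f3
  c12 := by
    have h1 := rw_spec hj F k_rwC
    have h2 : ([3, 15] : List ℕ) = [3] ++ [15] := rfl
    have h3 : ([15, 3] : List ℕ) = [15] ++ [3] := rfl
    rw [h2, h3, wv_append, wv_append, wv_one, wv_one] at h1
    exact h1
  prod := by
    rw [g_el hj F (fu_ex k_ua).1]
    simp only [List.map_cons, List.map_nil, List.prod_cons, List.prod_nil, mul_one, mul_assoc]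
  ce := by
    have h1 := rw_spec hj F k_rwE
    rw [wv_append, wv_append, wv_one, wv_el hj F (fu_ex k_ue).1] at h1
    exact h1
  ch := by
    have h1 := rw_spec hj F k_rwH
    rw [wv_append, wv_append, wv_append, wv_append, wv_append, wv_append, wv_one, wv_one,
      wv_el hj F (fu_ex k_u1).1, wv_el hj F (fu_ex k_u2).1, wv_el hj F (fu_ex k_u3).1] at h1
    have h2 : F.g (el hj [35]) = F.δ⁻¹ * F.g (el hj [3]) * F.δ := by
      rw [← F.g_tau, (tau_el hj k_x3).2]
      rw [show [3].map rd.ta = [35] by rw [List.map_cons, k_tt]; rfl]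
    rw [h2] at h1
    show F.g (el hj [3]) * F.hh _ _ _ = F.hh _ _ _ * F.g (el hj [3])
    unfold Frame.hh
    calc F.g (el hj [3]) * (F.g (el hj [1, 3, 4, 6, 33]) * F.g (el hj [2, 22]) *
          F.g (el hj [0, 16]) * F.δ⁻¹)
        = F.g (el hj [3]) * (F.g (el hj [1, 3, 4, 6, 33]) * (F.g (el hj [2, 22]) *
          F.g (el hj [0, 16]))) * F.δ⁻¹ := by simp only [mul_assoc]
      _ = F.g (el hj [1, 3, 4, 6, 33]) * F.g (el hj [2, 22]) * F.g (el hj [0, 16]) * F.δ⁻¹ *
          F.g (el hj [3]) := by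
        rw [h1]
        simp only [mul_assoc, mul_inv_cancel, mul_one]
  Ka := ki_spec hj k_ki
  a0 := by
    intro h
    have h1 := rk_el hj (fu_ex k_ua).1
    rw [h, (LG.germ hj).rk_bot] at h1
    exact absurd h1 (by decide)
  a1 := by
    intro h
    have h1 := K_el hj k_ua
    have h2 := rk_el hj (fu_ex k_ua).2.1
    rw [← h1, h, (LG.germ hj).K_top, (LG.germ hj).rk_bot] at h2
    exact absurd h2 (by decide)
  s0 := by
    intro h
    have h1 := rk_el hj k_x3
    rw [h, (LG.germ hj).rk_bot] at h1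
    exact absurd h1 (by decide)
  pb := by
    rw [g_el hj F (fu_ex k_ub).1]
    simp only [List.map_cons, List.map_nil, List.prod_cons, List.prod_nil, mul_one]
  Kb := ki_spec hj k_kb
  ab := by
    intro h
    have h1 := (LG.germ hj).rk_le h
    rw [rk_el hj (fu_ex k_ua).1, rk_el hj (fu_ex k_ub).1] at h1
    exact absurd h1 (by decide)
  loops := fun x h0 c1 c2 c3 c4 => loops hj h0 c1 c2 c3 c4

/-- the centraliser of `δ³` and the atom `3` generate the group -/
theorem gen_top {M : CoxeterMatrix (Fin rd.n)} [Lattice (Artin M)]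
    (F : Frame (LG.germ hj) (Artin M))
    (hg : ∀ k : Fin rd.n, F.g (el hj [(k : ℕ)]) = PresentedGroup.of k) :
    F.Cn 3 ⊔ Subgroup.closure {F.g (el hj [3])} = ⊤ :=
  GD.gen_sub hj F hg k_run k_fin

end Pool.Agent.SPH.E7
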