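import Pool.Agent.SPH.E7.Ok
import Pool.Agent.SPH.RG.Aut

/-!
# Project SPH, root germs: the form of type E7 is positive definite
-/

namespace Pool.Agent.SPH.E7

private theorem pos_aux (w : Fin 7 → ℚ) (hw : w ≠ 0) :
    0 < RG.euF 7 [(0, 2), (2, 3), (1, 3), (3, 4), (4, 5), (5, 6)] w w := by
  rw [RG.euF_apply, Fin.sum_univ_seven]
  simp only [List.map_cons, List.map_nil, List.sum_cons, List.sum_nil]
  have c0 : RG.co w 0 = w 0 := rfl
  have c1 : RG.co w 1 = w 1 := rfl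
  have c2 : RG.co w 2 = w 2 := rfl
  have c3 : RG.co w 3 = w 3 := rfl
  have c4 : RG.co w 4 = w 4 := rfl
  have c5 : RG.co w 5 = w 5 := rfl
  have c6 : RG.co w 6 = w 6 := rfl
  rw [c0, c1, c2, c3, c4, c5, c6]
  by_contra hc
  push Not at hc
  have e : w 0 * w 0 + w 1 * w 1 + w 2 * w 2 + w 3 * w 3 + w 4 * w 4 + w 5 * w 5 + w 6 * w 6 -
      (w 0 * w 2 + (w 2 * w 3 + (w 1 * w 3 + (w 3 * w 4 + (w 4 * w 5 + (w 5 * w 6 + 0)))))) =
      (w 1 - w 3 / 2) ^ 2 + (w 0 - w 2 / 2) ^ 2 + 3 / 4 * (w 2 - 2 / 3 * w 3) ^ 2 +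
        (w 6 - w 5 / 2) ^ 2 + 3 / 4 * (w 5 - 2 / 3 * w 4) ^ 2 + 2 / 3 * (w 4 - 3 / 4 * w 3) ^ 2 +
        1 / 24 * w 3 ^ 2 := by ring
  rw [e] at hc
  have q1 := sq_nonneg (w 1 - w 3 / 2)
  have q2 := sq_nonneg (w 0 - w 2 / 2)
  have q3 := sq_nonneg (w 2 - 2 / 3 * w 3)
  have q4 := sq_nonneg (w 6 - w 5 / 2)
  have q5 := sq_nonneg (w 5 - 2 / 3 * w 4)
  have q6 := sq_nonneg (w 4 - 3 / 4 * w 3)
  have q7 := sq_nonneg (w 3)
  have h3 : w 3 = 0 := pow_eq_zero_iff (two_ne_zero) |>.1 (by linarith)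
  have h1 : w 1 - w 3 / 2 = 0 := pow_eq_zero_iff (two_ne_zero) |>.1 (by linarith)
  have h2 : w 2 - 2 / 3 * w 3 = 0 := pow_eq_zero_iff (two_ne_zero) |>.1 (by linarith)
  have h4 : w 4 - 3 / 4 * w 3 = 0 := pow_eq_zero_iff (two_ne_zero) |>.1 (by linarith)
  have h5 : w 5 - 2 / 3 * w 4 = 0 := pow_eq_zero_iff (two_ne_zero) |>.1 (by linarith)
  have h0 : w 0 - w 2 / 2 = 0 := pow_eq_zero_iff (two_ne_zero) |>.1 (by linarith)
  have h6 : w 6 - w 5 / 2 = 0 := pow_eq_zero_iff (two_ne_zero) |>.1 (by linarith)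
  apply hw
  funext i
  fin_cases i
  · show w 0 = 0
    linarith
  · show w 1 = 0
    linarith
  · show w 2 = 0
    linarith
  · exact h3
  · show w 4 = 0
    linarith
  · show w 5 = 0
    linarith
  · show w 6 = 0
    linarith

/-- a sum of squares: from the leaves to the branch node `3`, for example for E8
`E v v = (v1 - v3/2)^2 + (v0 - v2/2)^2 + 3/4 (v2 - 2/3 v3)^2 + (v7 - v6/2)^2 + 3/4 (v6 - 2/3 v5)^2
+ 2/3 (v5 - 3/4 v4)^2 + 5/8 (v4 - 4/5 v3)^2 + 1/60 v3^2` (`euF_apply`, `co`) -/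
theorem pos (v : Fin rd.n → ℚ) (hv : v ≠ 0) : 0 < rd.eF v v :=
  pos_aux v hv

theorem au : rd.auB rd.n [] = true := by decide +kernel

theorem rd_ok : rd.Ok where
  hn := by decide
  m_pos := by decide
  ed := ed
  pos := pos
  noaut := RG.RD.noaut_of ed au
  R := kR
  I := kI
  W := kW
  rp := by decide +kernel
  Z := kZ

end Pool.Agent.SPH.E7
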