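import Pool.Agent.SPH.E7.Ok2
import Pool.Agent.SPH.E7.Pos
import Pool.Agent.SPH.RG.Asm

/-!
# Project SPH: the certificate of type `E7`, and the basic facts on the germ
-/

set_option maxRecDepth 10000

namespace Pool.Agent.SPH.E7

open Pool.Agent.Helper7.AG Pool.Agent.HT

/-- the Artin group of type `E7` -/
abbrev HA : Type := Artin CoxeterMatrix.E₇

set_option backward.isDefEq.respectTransparency false in
theorem cox_eq : ∀ a b : Fin 7, cox a b = CoxeterMatrix.E₇ a b := by decide +kernel

set_option backward.isDefEq.respectTransparency false in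
theorem M_bd : ∀ a b : Fin 7, a ≠ b → 2 ≤ CoxeterMatrix.E₇ a b ∧ CoxeterMatrix.E₇ a b ≤ 5 := by
  decide +kernel

set_option backward.isDefEq.respectTransparency false in
theorem brc_ok : ∀ a b : Fin 7, a ≠ b → CD.brc rd.d r2 (CoxeterMatrix.E₇ a b) a b = true ∨
    CD.brc rd.d r2 (CoxeterMatrix.E₇ b a) b a = true := by
  decide +kernel

theorem ck : rd.Ck CoxeterMatrix.E₇ cox (l0 ++ (l1)) a0 a2 r2 where
  n_pos := by decide
  N_lt := by decide
  A0_eq := by decide +kernel
  cox_eq := cox_eq
  M_bd := M_bd
  run := run_ok
  AA := by decide +kernel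
  RR := by decide +kernel
  DD := kD
  brc := brc_ok

theorem kt : (allB rd.N fun i => Nat.beq (rd.ucl (rd.orb 1 rd.m i)) 0) = true := by
  decide +kernel

theorem km : (allB rd.m fun j => cond (Nat.beq j 0) true
    (cond (Nat.beq (itN rd.ta j 0) 0) false true)) = true := by
  decide +kernel

theorem kf : rd.fuB (List.range rd.n) [] = true := by decide +kernel

/-- all the generators are conjugate -/
theorem hconj (s t : Fin 7) : IsConj (PresentedGroup.of s : HA) (PresentedGroup.of t) := by
  have h02 : IsConj (PresentedGroup.of 0 : HA) (PresentedGroup.of 2) := RG.isConj_three rfl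
  have h13 : IsConj (PresentedGroup.of 1 : HA) (PresentedGroup.of 3) := RG.isConj_three rfl
  have h23 : IsConj (PresentedGroup.of 2 : HA) (PresentedGroup.of 3) := RG.isConj_three rfl
  have h34 : IsConj (PresentedGroup.of 3 : HA) (PresentedGroup.of 4) := RG.isConj_three rfl
  have h45 : IsConj (PresentedGroup.of 4 : HA) (PresentedGroup.of 5) := RG.isConj_three rfl
  have h56 : IsConj (PresentedGroup.of 5 : HA) (PresentedGroup.of 6) := RG.isConj_three rfl
  have key : ∀ s : Fin 7, IsConj (PresentedGroup.of 3 : HA) (PresentedGroup.of s) := by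
    intro s
    fin_cases s
    · exact (h02.trans h23).symm
    · exact h13.symm
    · exact h23.symm
    · exact IsConj.refl _
    · exact h34
    · exact h34.trans h45
    · exact (h34.trans h45).trans h56
  exact (key s).symm.trans (key t)

end Pool.Agent.SPH.E7
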