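import Pool.Agent.SPH.E7.Pos
import Pool.Agent.SPH.RG.Gcl1

/-!
# Project SPH, type E7: generation certificates
-/

set_option linter.all false

namespace Pool.Agent.SPH.E7

open Pool.Agent.Helper7.AG

set_option maxRecDepth 10000

/-- the data, for the atom 3 -/
def gd3 : RG.GD where
  nm := [
    ([0], [1, 2, 3, 4, 5, 6]), ([1], [0, 2, 3, 4, 5, 6]), ([2], [1, 3, 4, 5, 6, 33]),
    ([3], [0, 4, 5, 6, 29, 30]), ([4], [0, 1, 2, 5, 6, 24]), ([5], [0, 1, 2, 3, 6, 18]),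
    ([6], [0, 1, 2, 3, 4, 12]), ([0, 1, 2, 3, 4, 5, 6], []), ([2, 3, 5, 6, 29], [8, 33]),
    ([1, 3, 4, 6, 33], [0, 16]), ([0, 4, 5, 23, 35], [2, 22]), ([0, 3, 6, 15, 16], [12, 40]),
    ([2, 4, 22, 26, 38], [10, 42]), ([12, 40], [5, 8, 9, 33, 35]), ([2, 22], [1, 3, 4, 6, 33]),
    ([0, 16], [2, 3, 5, 6, 29]), ([8, 33], [0, 4, 5, 23, 35]), ([10, 42], [0, 3, 6, 15, 16]),
    ([], [0, 1, 2, 3, 4, 5, 6]), ([0, 1, 2, 5, 6, 24], [3]), ([2, 5, 6, 29], [1, 3, 33]),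
    ([2, 3, 22], [4, 6, 15, 33]), ([0, 3, 16], [5, 6, 9, 29]), ([3, 4, 42], [0, 6, 15, 16]),
    ([1, 3, 33], [0, 4, 5, 23]), ([3, 12, 40], [5, 8, 9, 33]), ([5, 6, 9, 29], [8, 33, 35]),
    ([0, 4, 5, 6, 29, 30], [35]), ([4, 6, 15, 33], [0, 16, 35]), ([2, 4, 5, 6, 29, 33], [38]),
    ([1, 33], [0, 2, 3, 4, 5]), ([38], [0, 1, 2, 3, 4, 5]), ([2, 5, 6, 29, 33], [3, 43]),
    ([0, 2, 5, 6, 29], [1, 3]), ([35], [1, 2, 3, 4, 5, 33]), ([4, 5, 6, 29, 33], [0, 35]),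
    ([0, 4, 5, 23], [2, 6, 29]), ([0, 16, 35], [2, 3, 5, 22]), ([2, 4, 5, 6, 29], [1, 33]),
    ([5, 9], [2, 6, 8, 13, 18]), ([0, 2, 3, 4, 5], [6, 29]), ([0, 5, 23, 35], [2, 3, 22]),
    ([9], [2, 4, 5, 6, 29, 33]), ([9, 22], [4, 6, 15, 33, 35]), ([2, 22, 26, 38], [3, 4, 42]),
    ([28], [1, 2, 3, 4, 6, 33]), ([0, 1, 4, 5, 6, 30], [2]), ([0, 1, 4, 5, 23], [2, 6]),
    ([8], [0, 1, 4, 5, 6, 30]), ([0, 2, 4, 5, 6, 29], [1]), ([22], [0, 1, 3, 4, 6, 30]),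
    ([0, 1, 2, 3, 4, 5], [6]), ([0, 1, 2, 3, 6, 18], [4]), ([0, 1, 2, 3, 4, 12], [5]),
    ([1, 3, 4, 5, 6, 33], [0]), ([33], [0, 2, 3, 4, 5, 29])]
  tr := [
    (18, 3, 3), (19, 3, 7), (20, 3, 8), (14, 3, 21), (15, 3, 22), (17, 3, 23), (8, 16, 7),
    (3, 16, 24), (11, 13, 7), (3, 13, 25), (3, 26, 8), (15, 26, 27), (3, 28, 9), (14, 28, 29),
    (30, 3, 24), (16, 31, 24), (32, 31, 19), (20, 31, 33), (13, 34, 25), (35, 34, 29),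
    (36, 34, 10), (15, 34, 37), (20, 30, 19), (38, 30, 7), (25, 39, 8), (22, 39, 40), (10, 14, 7),
    (41, 14, 19), (42, 14, 21), (3, 43, 21), (18, 43, 43), (12, 17, 7), (44, 17, 19), (4, 17, 23),
    (43, 45, 21), (10, 45, 46), (36, 45, 47), (20, 48, 38), (33, 48, 49), (42, 50, 43),
    (40, 50, 51), (2, 50, 14), (44, 4, 12), (52, 4, 7), (37, 5, 41), (18, 5, 5), (53, 5, 7),
    (35, 0, 27), (18, 0, 0), (54, 0, 7), (20, 55, 32), (1, 55, 30), (47, 6, 46), (18, 6, 6)]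
  ga k := ent 8 0x6050403020100 k
  gb _ := 0

/-- the steps -/
def gl3 : List Gen.Stp := [
  .F 7, .F 8, .F 9, .F 10, .F 11, .F 12, .F 13, .F 14, .F 15, .F 16, .F 17, .F 18, .C 18 19 3,
  .C 18 20 3, .M 18 14 3, .M 18 15 3, .M 18 17 3, .M 8 3 16, .M 11 3 13, .M 3 15 26, .M 3 14 28,
  .C 18 30 3, .C 16 32 31, .M 16 20 31, .C 13 35 34, .C 13 36 34, .M 13 15 34, .C 20 38 30,
  .M 25 22 39, .C 10 41 14, .C 10 42 14, .M 3 18 43, .C 12 44 17, .C 12 4 17, .M 43 10 45,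
  .M 43 36 45, .M 20 33 48, .M 42 40 50, .C 42 2 50, .C 44 52 4, .M 37 18 5, .C 37 53 5,
  .M 35 18 0, .C 35 54 0, .C 20 1 55, .M 47 18 6]

theorem gr3 : Gen.run gd3.nN (fun x => x) (gd3.le rd) gd3.tm (gd3.fx rd 3 3)
    0x7adf7b6bffffff 0 gl3 (CD.ins 0 3) 0 = true := by
  decide +kernel

theorem gf3 : gd3.fin1 rd 0x7adf7b6bffffff = true := by decide +kernel

/-- a subgroup which contains the centraliser of `δ ^ 3` and the atom 3 is everything -/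
theorem gen3 {M : CoxeterMatrix (Fin rd.n)} (hj : (rd.rsys rd_ok).L.HasJoin) [Lattice (Artin M)]
    (F : Frame (LG.germ hj) (Artin M))
    (hg : ∀ k : Fin rd.n, F.g (RG.RD.el hj [(k : ℕ)]) = PresentedGroup.of k)
    {U : Subgroup (Artin M)} (hU : F.Cn 3 ≤ U)
    (h0 : F.g (RG.RD.el hj [3]) ∈ U) : U = ⊤ :=
  RG.GD.gen_one hj F hg gr3 gf3 hU h0

/-- the data, for the atom 5 -/
def gd5 : RG.GD where
  nm := [
    ([0], [1, 2, 3, 4, 5, 6]), ([1], [0, 2, 3, 4, 5, 6]), ([2], [1, 3, 4, 5, 6, 33]),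
    ([3], [0, 4, 5, 6, 29, 30]), ([4], [0, 1, 2, 5, 6, 24]), ([5], [0, 1, 2, 3, 6, 18]),
    ([6], [0, 1, 2, 3, 4, 12]), ([0, 1, 2, 3, 4, 5, 6], []), ([2, 3, 5, 6, 29], [8, 33]),
    ([1, 3, 4, 6, 33], [0, 16]), ([0, 4, 5, 23, 35], [2, 22]), ([0, 3, 6, 15, 16], [12, 40]),
    ([5, 8, 9, 33, 35], [11, 54]), ([0, 2, 10, 22], [3, 6, 15]), ([12, 40], [5, 8, 9, 33, 35]),
    ([2, 22], [1, 3, 4, 6, 33]), ([0, 16], [2, 3, 5, 6, 29]), ([8, 33], [0, 4, 5, 23, 35]),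
    ([11, 54], [2, 4, 22, 26, 38]), ([], [0, 1, 2, 3, 4, 5, 6]), ([0, 1, 2, 3, 4, 12], [5]),
    ([0, 4, 16, 35], [2, 5, 22]), ([5, 6, 40], [8, 9, 33, 35]), ([0, 5, 23], [2, 3, 6, 29]),
    ([5, 8, 33], [0, 9, 11, 35]), ([4, 5, 54], [2, 22, 26, 38]), ([2, 5, 22], [1, 3, 6, 33]),
    ([0, 9, 11, 35], [2, 4, 22]), ([0, 1, 2, 3, 6, 18], [4]), ([15], [0, 1, 3, 5, 6, 30]),
    ([0, 2, 3, 4, 29], [5, 22]), ([0, 1, 2, 5, 17], [3, 6]), ([0, 15, 16], [3, 5, 6, 40]),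
    ([1, 3, 6, 33], [0, 4, 16]), ([0, 3, 15, 16], [5, 6, 40]), ([26, 38], [0, 2, 3, 4, 22]),
    ([1, 3, 5, 6, 33], [0, 9]), ([0, 23], [2, 3, 4, 6, 29]), ([4, 5, 38], [0, 1, 2, 17]),
    ([3, 6], [0, 4, 12, 29, 30]), ([0, 1, 2, 17], [3, 4, 6]), ([2, 15], [1, 3, 5, 6, 33]),
    ([0, 1, 2, 10], [3, 5, 6]), ([4, 38], [0, 1, 2, 5, 17]), ([26], [0, 2, 3, 4, 6, 29]),
    ([0, 1, 2, 5, 6, 24], [3]), ([0, 1, 2, 3, 4, 5], [6]), ([20], [0, 2, 3, 5, 6, 29]),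
    ([1, 3, 4, 5, 6, 33], [0]), ([0, 1, 4, 5, 6, 30], [2]), ([16], [2, 3, 5, 6, 29, 33]),
    ([0, 2, 10], [3, 5, 6, 29]), ([0, 2, 22], [1, 3, 4, 6]), ([0, 2, 4, 5, 6, 29], [1])]
  tr := [
    (19, 5, 5), (20, 5, 7), (21, 5, 10), (14, 5, 22), (16, 5, 23), (17, 5, 24), (12, 18, 7),
    (5, 18, 25), (10, 15, 7), (5, 15, 26), (5, 27, 10), (17, 27, 28), (15, 29, 26), (30, 29, 20),
    (13, 29, 31), (16, 29, 32), (18, 4, 25), (19, 4, 4), (33, 4, 9), (11, 14, 7), (34, 14, 20),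
    (6, 14, 22), (25, 35, 10), (24, 35, 36), (5, 37, 23), (19, 37, 37), (38, 37, 10), (26, 39, 8),
    (40, 39, 28), (21, 41, 20), (16, 41, 42), (9, 16, 7), (43, 16, 21), (44, 16, 23), (32, 3, 34),
    (19, 3, 3), (45, 3, 7), (31, 3, 46), (33, 47, 36), (9, 47, 48), (21, 2, 30), (19, 2, 2),
    (49, 2, 7), (37, 50, 23), (0, 50, 16), (43, 51, 30), (1, 51, 42), (44, 52, 40), (38, 52, 53)]
  ga k := ent 8 0x6050403020100 k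
  gb _ := 0

/-- the steps -/
def gl5 : List Gen.Stp := [
  .F 7, .F 8, .F 9, .F 10, .F 11, .F 12, .F 13, .F 14, .F 15, .F 16, .F 17, .F 18, .F 19,
  .C 19 20 5, .C 19 21 5, .M 19 14 5, .M 19 16 5, .M 19 17 5, .M 12 5 18, .M 10 5 15, .M 5 17 27,
  .C 15 30 29, .M 15 13 29, .M 15 16 29, .M 18 19 4, .C 18 33 4, .C 11 34 14, .C 11 6 14,
  .M 25 24 35, .M 5 19 37, .C 5 38 37, .C 26 40 39, .M 21 16 41, .C 9 43 16, .C 9 44 16,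
  .M 32 19 3, .C 32 45 3, .M 32 31 3, .M 33 9 47, .M 21 19 2, .C 21 49 2, .C 37 0 50, .C 43 1 51,
  .M 44 38 52]

theorem gr5 : Gen.run gd5.nN (fun x => x) (gd5.le rd) gd5.tm (gd5.fx rd 3 3)
    0x237d77d7ffffff 0 gl5 (CD.ins 0 5) 0 = true := by
  decide +kernel

theorem gf5 : gd5.fin1 rd 0x237d77d7ffffff = true := by decide +kernel

/-- a subgroup which contains the centraliser of `δ ^ 3` and the atom 5 is everything -/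
theorem gen5 {M : CoxeterMatrix (Fin rd.n)} (hj : (rd.rsys rd_ok).L.HasJoin) [Lattice (Artin M)]
    (F : Frame (LG.germ hj) (Artin M))
    (hg : ∀ k : Fin rd.n, F.g (RG.RD.el hj [(k : ℕ)]) = PresentedGroup.of k)
    {U : Subgroup (Artin M)} (hU : F.Cn 3 ≤ U)
    (h0 : F.g (RG.RD.el hj [5]) ∈ U) : U = ⊤ :=
  RG.GD.gen_one hj F hg gr5 gf5 hU h0

end Pool.Agent.SPH.E7
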