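import Pool.Agent.SPH.E7.Pos
import Pool.Agent.SPH.RG.Loop

/-!
# Project SPH: the three commuting atoms of type E7, certificates
-/

set_option linter.all false

namespace Pool.Agent.SPH.E7

/-- the conditions -/
def cs : List (ℕ × ℕ × List (List ℕ)) := [
    (0, 0, [[0, 3, 6, 15, 16]]), (0, 1, [[12, 40]]), (0, 1, [[1, 3, 4, 6, 33], [2, 22], [0, 16]]),
    (1, 3, [[2, 3, 5, 6, 29], [29, 35, 3, 5, 22], [22, 28]])]

/-- the elements which are reached -/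
def gs : List (List ℕ) := [[3], [15], [6], [0, 8, 12, 30]]

/-- the certificates -/
def ce : List (List RG.LSt) := [
    [(1, [], [16]), (2, [[0, 16], [10, 42]], [8, 33])], [(0, [], [27])], [(0, [], [27])], [],
    [(0, [], [27])], [(0, [], [12])], [], [(0, [], [27])],
    [(0, [], [27]), (1, [], [20]), (2, [[0, 16], [42]], [33])], [(0, [], [27])], [(0, [], [27])],
    [(0, [], [12])], [(3, [[8], [8]], [43]), (1, [], [16])], [(0, [], [27])], [(0, [], [27])], [],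
    [(1, [], [20]), (2, [[0, 16], [10, 42]], [8, 33])], [(0, [], [40])], [(0, [], [12, 40])],
    [(0, [], [27])], [(1, [], [0]), (2, [[0, 16], [10, 42]], [8, 33])], [(0, [], [27])],
    [(0, [], [12])], [(0, [], [12])], [(0, [], [40])], [(0, [], [27])], [(0, [], [12])],
    [(3, [[43], [43]], [33]), (1, [], [0])], [(0, [], [40])], [(0, [], [12])],
    [(0, [], [12]), (2, [[0, 16], [10, 42]], [8, 33])],
    [(0, [], [27]), (2, [[0, 16], [42]], [33])], [(0, [], [40])],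
    [(0, [], [12]), (1, [], [0]), (2, [[16], [10]], [8])], [(0, [], [40])], [(0, [], [40])],
    [(0, [], [27])], [(0, [], [40])], [(0, [], [40])], [(0, [], [12])],
    [(3, [[33], [33]], [8]), (1, [], [20])], [(0, [], [40])], [(0, [], [12])],
    [(0, [], [40]), (1, [], [16]), (2, [[0, 16], [42]], [33])], [(0, [], [12])], [(0, [], [40])],
    [(0, [], [40])], [(0, [], [12])], [(0, [], [12])], [(0, [], [40])], [(0, [], [40])],
    [(0, [], [12])], [(0, [], [40])], [(0, [], [40]), (2, [[16], [10]], [8])], [(0, [], [40])],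
    [(0, [], [40])], [(0, [], [12])], [(0, [], [40])], [(0, [], [12])], [(0, [], [40])],
    [(0, [], [12])], [(0, [], [40])], [(0, [], [40])]]

/-- rewriting steps -/
def rwC : List RG.RW := [
    ⟨[], [3, 15], [15, 3], [], [0, 5, 6, 8, 30]⟩]

/-- rewriting steps -/
def rwE : List RG.RW := [
    ⟨[3], [0, 3, 6, 15, 16], [0, 6, 15, 16, 3], [], [12, 40]⟩,
    ⟨[], [3, 0, 6, 15, 16], [0, 3, 6, 15, 16], [3], [12, 40]⟩]

/-- rewriting steps -/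
def rwH : List RG.RW := [
    ⟨[3], [1, 3, 4, 6, 33], [4, 6, 15, 33, 38], [2, 22, 0, 16], [0, 16]⟩,
    ⟨[], [3, 4, 6, 15, 33], [1, 3, 4, 6, 33], [38, 2, 22, 0, 16], [0, 16]⟩,
    ⟨[1, 3, 4, 6, 33], [38, 2, 22], [2, 22, 38], [0, 16], [1, 3, 4, 26]⟩,
    ⟨[1, 3, 4, 6, 33, 2, 22], [38, 0, 16], [0, 16, 35], [], [2, 3, 5, 22]⟩]

/-- the generation certificate -/
def gd : RG.GD where
  nm := [
    ([0], [1, 2, 3, 4, 5, 6]), ([1], [0, 2, 3, 4, 5, 6]), ([2], [1, 3, 4, 5, 6, 33]),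
    ([3], [0, 4, 5, 6, 29, 30]), ([4], [0, 1, 2, 5, 6, 24]), ([5], [0, 1, 2, 3, 6, 18]),
    ([6], [0, 1, 2, 3, 4, 12]), ([], [0, 1, 2, 3, 4, 5, 6]), ([8, 33], [0, 4, 5, 23, 35]),
    ([1, 3, 33], [0, 4, 5, 23]), ([2, 3, 5, 6, 29], [8, 33]), ([5, 6, 9, 29], [8, 33, 35]),
    ([35], [1, 2, 3, 4, 5, 33]), ([0, 1, 3, 30], [4, 5, 23]), ([1, 3, 4, 6, 33], [0, 16]),
    ([4, 6, 15, 33], [0, 16, 35]), ([38], [0, 1, 2, 3, 4, 5]), ([1, 33], [0, 2, 3, 4, 5]),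
    ([2, 5, 6, 29], [1, 3, 33]), ([9], [2, 4, 5, 6, 29, 33]), ([2, 3], [4, 5, 6, 29, 33]),
    ([0, 2, 10, 22], [3, 6, 15]), ([0, 2, 3, 4, 22], [6, 15]), ([0, 1, 2, 3, 4, 5, 6], []),
    ([0, 4, 16], [2, 5, 6, 29]), ([0, 4, 5, 23], [2, 6, 29]), ([0, 8, 12, 30], [5, 9, 35]),
    ([0, 1, 3, 12, 30], [5, 9]), ([5, 9], [2, 6, 8, 13, 18]), ([2, 22], [1, 3, 4, 6, 33]),
    ([2, 3, 5, 22], [6, 8, 33])]
  tr := [
    (7, 8, 8), (3, 8, 9), (3, 11, 10), (7, 11, 11), (11, 12, 10), (7, 12, 12), (7, 9, 9),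
    (12, 9, 13), (9, 0, 13), (7, 0, 0), (3, 15, 14), (7, 15, 15), (15, 16, 14), (7, 16, 16),
    (7, 3, 3), (17, 3, 9), (16, 1, 17), (7, 1, 1), (18, 3, 10), (7, 18, 18), (19, 18, 10),
    (7, 19, 19), (3, 19, 20), (2, 3, 20), (21, 3, 22), (7, 21, 21), (4, 21, 22), (24, 18, 23),
    (9, 25, 23), (7, 25, 25), (24, 5, 25), (7, 5, 5), (7, 26, 26), (3, 26, 27), (27, 28, 23),
    (7, 28, 28), (7, 29, 29), (28, 29, 30), (30, 6, 10), (7, 6, 6)]
  ga k := k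
  gb k := k

/-- the steps -/
def gl : List Gen.Stp := [
    .F 7, .F 3, .F 8, .M 7 3 8, .F 10, .M 3 7 11, .M 11 7 12, .M 7 12 9, .M 9 7 0, .F 14,
    .M 3 7 15, .M 15 7 16, .C 7 17 3, .M 16 7 1, .C 7 18 3, .C 7 19 18, .M 7 3 19, .C 7 2 3,
    .F 21, .M 7 21 3, .C 7 4 21, .F 23, .C 7 24 18, .M 9 7 25, .M 24 7 5, .F 26, .M 7 3 26,
    .M 27 7 28, .F 29, .M 7 28 29, .M 30 7 6]

/-- the mask -/
def gz : ℕ := 0x7fffffff

end Pool.Agent.SPH.E7
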