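import Pool.Agent.SPH.E7.Pair
import Pool.Agent.SPH.E7.Cert

/-!
# Project SPH, root germs: the checks of the pairs and of the relations of type E7
-/

set_option maxRecDepth 10000

namespace Pool.Agent.SPH.E7

theorem q0 : rd.roB 0 p0 0 = true := by decide +kernel

theorem q1 : rd.roB 1 p1 0 = true := by decide +kernel

theorem q3 : rd.roB 3 p3 0 = true := by decide +kernel

theorem q7 : rd.roB 7 p7 0 = true := by decide +kernel

theorem q10 : rd.roB 10 p10 0 = true := by decide +kernel

theorem q17 : rd.roB 17 p17 0 = true := by decide +kernel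

theorem q19 : rd.roB 19 p19 0 = true := by decide +kernel

theorem pair_ok : ∀ a ∈ rd.rp, ∃ l, rd.roB a l 0 = true := by
  intro a ha
  have h : a ∈ [0, 1, 3, 7, 10, 17, 19] := ha
  simp only [List.mem_cons, List.not_mem_nil, or_false] at h
  rcases h with rfl | rfl | rfl | rfl | rfl | rfl | rfl
  · exact ⟨_, q0⟩
  · exact ⟨_, q1⟩
  · exact ⟨_, q3⟩
  · exact ⟨_, q7⟩
  · exact ⟨_, q10⟩
  · exact ⟨_, q17⟩
  · exact ⟨_, q19⟩

theorem c0 : CD.run rd.d cox a0 a1 r1 l0 a0 r0 = true := by decide +kernel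

theorem c1 : CD.run rd.d cox a0 a2 r2 l1 a1 r1 = true := by decide +kernel

theorem run_ok : CD.run rd.d cox a0 a2 r2 (l0 ++ (l1)) a0 0 = true :=
  CD.run_append c0 (c1)

end Pool.Agent.SPH.E7
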