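import Pool.Agent.SPH.E7.Tab

/-!
# Project SPH, root germs: the pairs of atoms of type E7
-/

set_option linter.all false

namespace Pool.Agent.SPH.E7

/-- the pairs with the atom 0 -/
def p0 : List RG.PD := [
  ⟨[], [], []⟩, ⟨[0, 1], [2, 3, 4, 5, 6], []⟩, ⟨[0, 2], [1, 3, 4, 5, 6], []⟩,
  ⟨[0, 3], [4, 5, 6, 29, 30], []⟩, ⟨[0, 4], [1, 2, 5, 6, 24], []⟩,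
  ⟨[0, 5], [1, 2, 3, 6, 18], []⟩, ⟨[0, 6], [1, 2, 3, 4, 12], []⟩, ⟨[0, 2], [1, 3, 4, 5, 6], []⟩,
  ⟨[0, 8], [1, 4, 5, 6, 30], []⟩, ⟨[0, 9], [2, 4, 5, 6, 29], []⟩,
  ⟨[0, 10], [3, 5, 6, 29, 30], []⟩, ⟨[0, 11], [1, 2, 4, 6, 24], []⟩,
  ⟨[0, 12], [1, 2, 3, 5, 18], []⟩, ⟨[0, 9], [2, 4, 5, 6, 29], []⟩,
  ⟨[0, 14], [1, 2, 4, 5, 6], []⟩, ⟨[0, 15], [1, 3, 5, 6, 30], []⟩,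
  ⟨[0, 16], [2, 3, 5, 6, 29], []⟩, ⟨[0, 17], [3, 4, 6, 29, 30], []⟩,
  ⟨[0, 18], [1, 2, 4, 5, 24], []⟩, ⟨[0, 14], [1, 2, 4, 5, 6], []⟩,
  ⟨[0, 16], [2, 3, 5, 6, 29], []⟩, ⟨[0, 21], [1, 2, 3, 5, 6], []⟩,
  ⟨[0, 22], [1, 3, 4, 6, 30], []⟩, ⟨[0, 23], [2, 3, 4, 6, 29], []⟩,
  ⟨[0, 24], [3, 4, 5, 29, 30], []⟩, ⟨[0, 21], [1, 2, 3, 5, 6], []⟩,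
  ⟨[0, 23], [2, 3, 4, 6, 29], []⟩, ⟨[0, 27], [5, 6, 8, 9, 35], []⟩,
  ⟨[0, 28], [1, 2, 3, 4, 6], []⟩, ⟨[0, 29], [1, 3, 4, 5, 30], []⟩,
  ⟨[0, 30], [2, 3, 4, 5, 29], []⟩, ⟨[0, 27], [5, 6, 8, 9, 35], []⟩,
  ⟨[0, 28], [1, 2, 3, 4, 6], []⟩, ⟨[0, 30], [2, 3, 4, 5, 29], []⟩,
  ⟨[0, 34], [4, 6, 15, 16, 35], []⟩, ⟨[0, 35], [1, 2, 3, 4, 5], []⟩,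
  ⟨[0, 9, 21], [2, 5, 6, 8], [9]⟩, ⟨[0, 34], [4, 6, 15, 16, 35], []⟩,
  ⟨[0, 35], [1, 2, 3, 4, 5], []⟩, ⟨[0, 39], [3, 6, 15, 16, 40], []⟩,
  ⟨[0, 40], [4, 5, 22, 23, 35], []⟩, ⟨[0, 9, 28], [2, 4, 6, 15], [9]⟩,
  ⟨[0, 39], [3, 6, 15, 16, 40], []⟩, ⟨[0, 40], [4, 5, 22, 23, 35], []⟩,
  ⟨[0, 44], [3, 5, 22, 23, 40], []⟩, ⟨[0, 16, 28], [2, 3, 6, 15], [16]⟩,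
  ⟨[0, 9, 35], [2, 4, 5, 22], [9]⟩, ⟨[0, 44], [3, 5, 22, 23, 40], []⟩,
  ⟨[0, 48], [3, 4, 22, 23, 44], []⟩, ⟨[0, 16, 34], [6, 9, 15, 35], [16]⟩,
  ⟨[0, 16, 35], [2, 3, 5, 22], [16]⟩, ⟨[0, 48], [3, 4, 22, 23, 44], []⟩,
  ⟨[0, 27, 28], [6, 8, 9, 21], [27]⟩, ⟨[0, 16, 40], [5, 9, 22, 35], [16]⟩,
  ⟨[0, 23, 35], [2, 3, 4, 22], [23]⟩, ⟨[0, 27, 35], [5, 8, 9, 28], [27]⟩,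
  ⟨[0, 23, 40], [4, 16, 22, 35], [23]⟩, ⟨[0, 34, 35], [4, 15, 16, 28], [34]⟩,
  ⟨[0, 23, 44], [3, 16, 22, 40], [23]⟩, ⟨[0, 35, 39], [3, 15, 16, 34], [35]⟩,
  ⟨[0, 39, 40], [15, 16, 34, 35], [39]⟩, ⟨[0, 16, 34, 35], [9, 15, 28], [16]⟩,
  ⟨[0, 16, 34, 35], [9, 15, 28], [20]⟩]

/-- the pairs with the atom 1 -/
def p1 : List RG.PD := [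
  ⟨[0, 1], [2, 3, 4, 5, 6], []⟩, ⟨[], [], []⟩, ⟨[1, 2], [3, 4, 5, 6, 33], []⟩,
  ⟨[1, 3], [0, 4, 5, 6, 30], []⟩, ⟨[1, 4], [0, 2, 5, 6, 24], []⟩, ⟨[1, 5], [0, 2, 3, 6, 18], []⟩,
  ⟨[1, 6], [0, 2, 3, 4, 12], []⟩, ⟨[1, 7], [0, 3, 4, 5, 6], []⟩, ⟨[1, 3], [0, 4, 5, 6, 30], []⟩,
  ⟨[1, 9], [2, 4, 5, 6, 33], []⟩, ⟨[1, 10], [0, 3, 5, 6, 30], []⟩,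
  ⟨[1, 11], [0, 2, 4, 6, 24], []⟩, ⟨[1, 12], [0, 2, 3, 5, 18], []⟩,
  ⟨[1, 13], [0, 2, 4, 5, 6], []⟩, ⟨[1, 9], [2, 4, 5, 6, 33], []⟩,
  ⟨[1, 10], [0, 3, 5, 6, 30], []⟩, ⟨[1, 16], [2, 3, 5, 6, 33], []⟩,
  ⟨[1, 17], [0, 3, 4, 6, 30], []⟩, ⟨[1, 18], [0, 2, 4, 5, 24], []⟩,
  ⟨[1, 13], [0, 2, 4, 5, 6], []⟩, ⟨[1, 20], [0, 2, 3, 5, 6], []⟩,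
  ⟨[1, 16], [2, 3, 5, 6, 33], []⟩, ⟨[1, 17], [0, 3, 4, 6, 30], []⟩,
  ⟨[1, 23], [2, 3, 4, 6, 33], []⟩, ⟨[1, 24], [0, 3, 4, 5, 30], []⟩,
  ⟨[1, 20], [0, 2, 3, 5, 6], []⟩, ⟨[1, 26], [0, 2, 3, 4, 6], []⟩,
  ⟨[1, 3, 16], [5, 6, 9, 33], [3]⟩, ⟨[1, 23], [2, 3, 4, 6, 33], []⟩,
  ⟨[1, 24], [0, 3, 4, 5, 30], []⟩, ⟨[1, 30], [2, 3, 4, 5, 33], []⟩,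
  ⟨[1, 3, 20], [0, 5, 6, 9], [3]⟩, ⟨[1, 26], [0, 2, 3, 4, 6], []⟩,
  ⟨[1, 33], [0, 2, 3, 4, 5], []⟩, ⟨[1, 3, 23], [4, 6, 16, 33], [3]⟩,
  ⟨[1, 30], [2, 3, 4, 5, 33], []⟩, ⟨[1, 9, 20], [2, 5, 6, 13], [9]⟩,
  ⟨[1, 3, 26], [0, 4, 6, 16], [3]⟩, ⟨[1, 33], [0, 2, 3, 4, 5], []⟩,
  ⟨[1, 10, 23], [3, 6, 16, 33], [10]⟩, ⟨[1, 3, 30], [4, 5, 23, 33], [3]⟩,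
  ⟨[1, 9, 26], [2, 4, 6, 20], [9]⟩, ⟨[1, 10, 26], [0, 3, 6, 16], [10]⟩,
  ⟨[1, 3, 33], [0, 4, 5, 23], [3]⟩, ⟨[1, 10, 30], [3, 5, 23, 33], [10]⟩,
  ⟨[1, 16, 26], [2, 3, 6, 20], [16]⟩, ⟨[1, 9, 33], [2, 4, 5, 26], [9]⟩,
  ⟨[1, 10, 33], [0, 3, 5, 23], [10]⟩, ⟨[1, 17, 30], [3, 4, 23, 33], [17]⟩,
  ⟨[1, 3, 16, 26], [6, 9, 20], [3]⟩, ⟨[1, 16, 33], [2, 3, 5, 26], [16]⟩,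
  ⟨[1, 17, 33], [0, 3, 4, 23], [17]⟩, ⟨[1, 3, 16, 26], [6, 9, 20], [8]⟩,
  ⟨[1, 3, 16, 33], [5, 9, 26], [3]⟩, ⟨[1, 23, 33], [2, 3, 4, 26], [23]⟩,
  ⟨[1, 3, 16, 33], [5, 9, 26], [8]⟩, ⟨[1, 3, 23, 33], [4, 16, 26], [3]⟩,
  ⟨[1, 3, 23, 33], [4, 16, 26], [8]⟩, ⟨[1, 10, 23, 33], [3, 16, 26], [10]⟩,
  ⟨[1, 10, 23, 33], [3, 16, 26], [15]⟩, ⟨[1, 3, 4, 23, 33], [16, 26], [3]⟩,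
  ⟨[1, 3, 5, 23, 33], [9, 26], [16]⟩, ⟨[1, 3, 6, 16, 33], [9, 20], [26]⟩]

/-- the pairs with the atom 3 -/
def p3 : List RG.PD := [
  ⟨[0, 3], [4, 5, 6, 29, 30], []⟩, ⟨[1, 3], [0, 4, 5, 6, 30], []⟩,
  ⟨[2, 3], [4, 5, 6, 29, 33], []⟩, ⟨[], [], []⟩, ⟨[3, 4], [0, 5, 6, 29, 30], []⟩,
  ⟨[3, 5], [0, 6, 8, 9, 18], []⟩, ⟨[3, 6], [0, 4, 12, 29, 30], []⟩,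
  ⟨[3, 13], [0, 4, 5, 6, 29], []⟩, ⟨[1, 3], [0, 4, 5, 6, 30], []⟩,
  ⟨[2, 3], [4, 5, 6, 29, 33], []⟩, ⟨[3, 4], [0, 5, 6, 29, 30], []⟩,
  ⟨[3, 11], [0, 4, 6, 29, 30], []⟩, ⟨[3, 12], [0, 5, 8, 9, 18], []⟩,
  ⟨[3, 13], [0, 4, 5, 6, 29], []⟩, ⟨[1, 2, 3], [4, 5, 6, 33], [1]⟩,
  ⟨[3, 15], [0, 5, 6, 8, 30], []⟩, ⟨[3, 16], [5, 6, 9, 29, 33], []⟩,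
  ⟨[3, 11], [0, 4, 6, 29, 30], []⟩, ⟨[3, 18], [0, 4, 5, 29, 30], []⟩,
  ⟨[1, 3, 13], [0, 4, 5, 6], [1]⟩, ⟨[3, 20], [0, 5, 6, 9, 29], []⟩,
  ⟨[3, 27], [5, 6, 8, 9, 33], []⟩, ⟨[3, 22], [0, 4, 6, 15, 30], []⟩,
  ⟨[3, 23], [4, 6, 16, 29, 33], []⟩, ⟨[3, 18], [0, 4, 5, 29, 30], []⟩,
  ⟨[3, 31], [0, 5, 6, 8, 9], []⟩, ⟨[3, 26], [0, 4, 6, 16, 29], []⟩,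
  ⟨[3, 27], [5, 6, 8, 9, 33], []⟩, ⟨[3, 34], [4, 6, 15, 16, 33], []⟩,
  ⟨[3, 29], [0, 4, 5, 22, 30], []⟩, ⟨[3, 30], [4, 5, 23, 29, 33], []⟩,
  ⟨[3, 31], [0, 5, 6, 8, 9], []⟩, ⟨[3, 37], [0, 4, 6, 15, 16], []⟩,
  ⟨[3, 33], [0, 4, 5, 23, 29], []⟩, ⟨[3, 34], [4, 6, 15, 16, 33], []⟩,
  ⟨[3, 40], [4, 5, 22, 23, 33], []⟩, ⟨[2, 3, 31], [5, 6, 8, 13], [2]⟩,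
  ⟨[3, 37], [0, 4, 6, 15, 16], []⟩, ⟨[3, 43], [0, 4, 5, 22, 23], []⟩,
  ⟨[3, 39], [6, 15, 16, 33, 40], []⟩, ⟨[3, 40], [4, 5, 22, 23, 33], []⟩,
  ⟨[2, 3, 37], [4, 6, 15, 20], [2]⟩, ⟨[3, 42], [0, 6, 15, 16, 40], []⟩,
  ⟨[3, 43], [0, 4, 5, 22, 23], []⟩, ⟨[3, 44], [5, 22, 23, 33, 40], []⟩,
  ⟨[3, 49], [6, 9, 15, 20, 43], []⟩, ⟨[2, 3, 43], [4, 5, 22, 26], [2]⟩,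
  ⟨[3, 47], [0, 5, 22, 23, 40], []⟩, ⟨[3, 48], [4, 22, 23, 33, 44], []⟩,
  ⟨[3, 49], [6, 9, 15, 20, 43], []⟩, ⟨[3, 53], [5, 9, 22, 26, 43], []⟩,
  ⟨[3, 51], [0, 4, 22, 23, 44], []⟩, ⟨[3, 27, 37], [6, 8, 9, 20], [21]⟩,
  ⟨[3, 53], [5, 9, 22, 26, 43], []⟩, ⟨[3, 56], [4, 16, 22, 26, 47], []⟩,
  ⟨[3, 27, 43], [5, 8, 9, 26], [21]⟩, ⟨[3, 56], [4, 16, 22, 26, 47], []⟩,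
  ⟨[3, 34, 43], [4, 15, 16, 26], [28]⟩, ⟨[3, 58], [16, 22, 26, 40, 47], []⟩,
  ⟨[3, 60], [15, 16, 26, 34, 53], []⟩, ⟨[3, 60], [15, 16, 26, 34, 53], []⟩,
  ⟨[3, 34, 53], [9, 15, 26, 43], [28]⟩, ⟨[3, 43, 49], [9, 15, 20, 37], [38]⟩]

/-- the pairs with the atom 7 -/
def p7 : List RG.PD := [
  ⟨[0, 2], [1, 3, 4, 5, 6], []⟩, ⟨[1, 7], [0, 3, 4, 5, 6], []⟩, ⟨[0, 2], [1, 3, 4, 5, 6], []⟩,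
  ⟨[3, 13], [0, 4, 5, 6, 29], []⟩, ⟨[4, 7], [0, 1, 5, 6, 24], []⟩,
  ⟨[5, 7], [0, 1, 3, 6, 18], []⟩, ⟨[6, 7], [0, 1, 3, 4, 12], []⟩, ⟨[], [], []⟩,
  ⟨[7, 8], [0, 1, 4, 5, 6], []⟩, ⟨[0, 2, 3], [4, 5, 6, 29], [0]⟩,
  ⟨[7, 10], [0, 3, 5, 6, 29], []⟩, ⟨[7, 11], [0, 1, 4, 6, 24], []⟩,
  ⟨[7, 12], [0, 1, 3, 5, 18], []⟩, ⟨[3, 13], [0, 4, 5, 6, 29], []⟩,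
  ⟨[0, 2, 8], [1, 4, 5, 6], [0]⟩, ⟨[7, 15], [0, 1, 3, 5, 6], []⟩,
  ⟨[0, 2, 10], [3, 5, 6, 29], [0]⟩, ⟨[7, 17], [0, 3, 4, 6, 29], []⟩,
  ⟨[7, 18], [0, 1, 4, 5, 24], []⟩, ⟨[7, 8], [0, 1, 4, 5, 6], []⟩,
  ⟨[7, 10], [0, 3, 5, 6, 29], []⟩, ⟨[0, 2, 15], [1, 3, 5, 6], [0]⟩,
  ⟨[7, 22], [0, 1, 3, 4, 6], []⟩, ⟨[0, 2, 17], [3, 4, 6, 29], [0]⟩,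
  ⟨[7, 24], [0, 3, 4, 5, 29], []⟩, ⟨[7, 15], [0, 1, 3, 5, 6], []⟩,
  ⟨[7, 17], [0, 3, 4, 6, 29], []⟩, ⟨[0, 2, 3, 15], [5, 6, 8], [0]⟩,
  ⟨[0, 2, 22], [1, 3, 4, 6], [0]⟩, ⟨[7, 29], [0, 1, 3, 4, 5], []⟩,
  ⟨[0, 2, 24], [3, 4, 5, 29], [0]⟩, ⟨[3, 13, 15], [0, 5, 6, 8], [3]⟩,
  ⟨[7, 22], [0, 1, 3, 4, 6], []⟩, ⟨[7, 24], [0, 3, 4, 5, 29], []⟩,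
  ⟨[0, 2, 3, 22], [4, 6, 15], [0]⟩, ⟨[0, 2, 29], [1, 3, 4, 5], [0]⟩,
  ⟨[0, 2, 3, 15], [5, 6, 8], [2]⟩, ⟨[3, 13, 22], [0, 4, 6, 15], [3]⟩,
  ⟨[7, 29], [0, 1, 3, 4, 5], []⟩, ⟨[0, 2, 10, 22], [3, 6, 15], [0]⟩,
  ⟨[0, 2, 3, 29], [4, 5, 22], [0]⟩, ⟨[0, 2, 3, 22], [4, 6, 15], [2]⟩,
  ⟨[7, 10, 22], [0, 3, 6, 15], [10]⟩, ⟨[3, 13, 29], [0, 4, 5, 22], [3]⟩,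
  ⟨[0, 2, 10, 29], [3, 5, 22], [0]⟩, ⟨[0, 2, 10, 22], [3, 6, 15], [2]⟩,
  ⟨[0, 2, 3, 29], [4, 5, 22], [2]⟩, ⟨[7, 10, 29], [0, 3, 5, 22], [10]⟩,
  ⟨[0, 2, 17, 29], [3, 4, 22], [0]⟩, ⟨[0, 2, 3, 4, 22], [6, 15], [3]⟩,
  ⟨[0, 2, 10, 29], [3, 5, 22], [2]⟩, ⟨[7, 17, 29], [0, 3, 4, 22], [17]⟩,
  ⟨[0, 2, 3, 5, 22], [6, 8], [15]⟩, ⟨[0, 2, 3, 4, 29], [5, 22], [3]⟩,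
  ⟨[0, 2, 17, 29], [3, 4, 22], [2]⟩, ⟨[0, 2, 3, 12, 29], [5, 8], [15]⟩,
  ⟨[0, 2, 3, 11, 29], [4, 22], [3]⟩, ⟨[0, 2, 3, 6, 29], [4, 15], [22]⟩,
  ⟨[0, 2, 5, 17, 29], [3, 22], [10]⟩, ⟨[0, 2, 6, 10, 29], [3, 15], [22]⟩,
  ⟨[0, 2, 3, 4, 6, 29], [15], [3]⟩, ⟨[0, 2, 3, 4, 6, 29], [15], [0, 9]⟩,
  ⟨[0, 2, 3, 4, 6, 29], [15], [20]⟩]

/-- the pairs with the atom 10 -/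
def p10 : List RG.PD := [
  ⟨[0, 10], [3, 5, 6, 29, 30], []⟩, ⟨[1, 10], [0, 3, 5, 6, 30], []⟩,
  ⟨[2, 10], [3, 5, 6, 29, 33], []⟩, ⟨[3, 4], [0, 5, 6, 29, 30], []⟩,
  ⟨[3, 4], [0, 5, 6, 29, 30], []⟩, ⟨[5, 17], [0, 3, 6, 29, 30], []⟩,
  ⟨[6, 10], [0, 3, 12, 29, 30], []⟩, ⟨[7, 10], [0, 3, 5, 6, 29], []⟩,
  ⟨[1, 3, 4], [0, 5, 6, 30], [1]⟩, ⟨[2, 3, 4], [5, 6, 29, 33], [2]⟩, ⟨[], [], []⟩,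
  ⟨[3, 4, 5], [0, 6, 29, 30], [3]⟩, ⟨[10, 12], [0, 3, 5, 29, 30], []⟩,
  ⟨[3, 4, 20], [0, 5, 6, 29], [3]⟩, ⟨[1, 2, 3, 4], [5, 6, 33], [1]⟩,
  ⟨[1, 10], [0, 3, 5, 6, 30], []⟩, ⟨[2, 10], [3, 5, 6, 29, 33], []⟩,
  ⟨[5, 17], [0, 3, 6, 29, 30], []⟩, ⟨[3, 4, 12], [0, 5, 29, 30], [3]⟩,
  ⟨[1, 3, 4, 20], [0, 5, 6], [1]⟩, ⟨[7, 10], [0, 3, 5, 6, 29], []⟩,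
  ⟨[1, 2, 10], [3, 5, 6, 33], [1]⟩, ⟨[10, 22], [0, 3, 6, 15, 30], []⟩,
  ⟨[10, 23], [3, 6, 16, 29, 33], []⟩, ⟨[10, 12], [0, 3, 5, 29, 30], []⟩,
  ⟨[1, 7, 10], [0, 3, 5, 6], [1]⟩, ⟨[10, 26], [0, 3, 6, 16, 29], []⟩,
  ⟨[1, 2, 3, 4], [5, 6, 33], [3]⟩, ⟨[10, 39], [3, 6, 15, 16, 33], []⟩,
  ⟨[10, 29], [0, 3, 5, 22, 30], []⟩, ⟨[10, 30], [3, 5, 23, 29, 33], []⟩,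
  ⟨[1, 3, 4, 20], [0, 5, 6], [3]⟩, ⟨[10, 42], [0, 3, 6, 15, 16], []⟩,
  ⟨[10, 33], [0, 3, 5, 23, 29], []⟩, ⟨[3, 4, 39], [6, 15, 16, 33], [3]⟩,
  ⟨[10, 44], [3, 5, 22, 23, 33], []⟩, ⟨[0, 1, 2, 3, 4], [5, 6], [2]⟩,
  ⟨[3, 4, 42], [0, 6, 15, 16], [3]⟩, ⟨[10, 47], [0, 3, 5, 22, 23], []⟩,
  ⟨[10, 39], [3, 6, 15, 16, 33], []⟩, ⟨[3, 4, 44], [5, 22, 23, 33], [3]⟩,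
  ⟨[2, 3, 4, 42], [6, 15, 20], [2]⟩, ⟨[10, 42], [0, 3, 6, 15, 16], []⟩,
  ⟨[3, 4, 47], [0, 5, 22, 23], [3]⟩, ⟨[10, 44], [3, 5, 22, 23, 33], []⟩,
  ⟨[2, 10, 42], [3, 6, 15, 20], [2]⟩, ⟨[2, 3, 4, 47], [5, 22, 26], [2]⟩,
  ⟨[10, 47], [0, 3, 5, 22, 23], []⟩, ⟨[10, 48], [3, 22, 23, 33, 44], []⟩,
  ⟨[2, 3, 4, 42], [6, 15, 20], [3]⟩, ⟨[2, 10, 47], [3, 5, 22, 26], [2]⟩,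
  ⟨[10, 51], [0, 3, 22, 23, 44], []⟩, ⟨[1, 2, 3, 4, 26], [6, 20], [15]⟩,
  ⟨[2, 3, 4, 47], [5, 22, 26], [3]⟩, ⟨[10, 58], [3, 16, 22, 26, 47], []⟩,
  ⟨[1, 2, 3, 4, 33], [5, 26], [15]⟩, ⟨[3, 4, 58], [16, 22, 26, 47], [3]⟩,
  ⟨[3, 4, 39, 47], [15, 16, 26], [4]⟩, ⟨[10, 58], [3, 16, 22, 26, 47], []⟩,
  ⟨[10, 39, 47], [3, 15, 16, 26], [28]⟩, ⟨[3, 4, 39, 47], [15, 16, 26], [3]⟩,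
  ⟨[2, 3, 4, 22, 47], [15, 26], [16]⟩, ⟨[2, 3, 4, 6, 47], [15, 20], [38]⟩]

/-- the pairs with the atom 17 -/
def p17 : List RG.PD := [
  ⟨[0, 17], [3, 4, 6, 29, 30], []⟩, ⟨[1, 17], [0, 3, 4, 6, 30], []⟩,
  ⟨[2, 17], [3, 4, 6, 29, 33], []⟩, ⟨[3, 11], [0, 4, 6, 29, 30], []⟩,
  ⟨[4, 17], [0, 6, 10, 29, 30], []⟩, ⟨[5, 17], [0, 3, 6, 29, 30], []⟩,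
  ⟨[6, 24], [0, 3, 4, 29, 30], []⟩, ⟨[7, 17], [0, 3, 4, 6, 29], []⟩,
  ⟨[1, 3, 11], [0, 4, 6, 30], [1]⟩, ⟨[2, 3, 11], [4, 6, 29, 33], [2]⟩,
  ⟨[5, 17], [0, 3, 6, 29, 30], []⟩, ⟨[3, 11], [0, 4, 6, 29, 30], []⟩,
  ⟨[5, 6, 24], [0, 3, 29, 30], [5]⟩, ⟨[3, 11, 26], [0, 4, 6, 29], [3]⟩,
  ⟨[1, 2, 3, 11], [4, 6, 33], [1]⟩, ⟨[1, 5, 17], [0, 3, 6, 30], [1]⟩,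
  ⟨[2, 5, 17], [3, 6, 29, 33], [2]⟩, ⟨[], [], []⟩, ⟨[3, 6, 18], [0, 4, 29, 30], [3]⟩,
  ⟨[1, 3, 11, 26], [0, 4, 6], [1]⟩, ⟨[5, 7, 17], [0, 3, 6, 29], [5]⟩,
  ⟨[1, 2, 5, 17], [3, 6, 33], [1]⟩, ⟨[1, 17], [0, 3, 4, 6, 30], []⟩,
  ⟨[2, 17], [3, 4, 6, 29, 33], []⟩, ⟨[6, 24], [0, 3, 4, 29, 30], []⟩,
  ⟨[1, 5, 7, 17], [0, 3, 6], [1]⟩, ⟨[7, 17], [0, 3, 4, 6, 29], []⟩,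
  ⟨[1, 2, 3, 4, 5], [6, 33], [3]⟩, ⟨[1, 2, 17], [3, 4, 6, 33], [1]⟩,
  ⟨[17, 29], [0, 3, 4, 22, 30], []⟩, ⟨[17, 30], [3, 4, 23, 29, 33], []⟩,
  ⟨[1, 3, 4, 5, 26], [0, 6], [3]⟩, ⟨[1, 7, 17], [0, 3, 4, 6], [1]⟩,
  ⟨[17, 33], [0, 3, 4, 23, 29], []⟩, ⟨[1, 2, 3, 11], [4, 6, 33], [3]⟩,
  ⟨[17, 48], [3, 4, 22, 23, 33], []⟩, ⟨[0, 1, 2, 3, 4, 5], [6], [2]⟩,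
  ⟨[1, 3, 11, 26], [0, 4, 6], [3]⟩, ⟨[17, 51], [0, 3, 4, 22, 23], []⟩,
  ⟨[1, 2, 5, 17], [3, 6, 33], [10]⟩, ⟨[3, 11, 48], [4, 22, 23, 33], [3]⟩,
  ⟨[0, 1, 2, 3, 11], [4, 6], [2]⟩, ⟨[1, 5, 7, 17], [0, 3, 6], [10]⟩,
  ⟨[3, 11, 51], [0, 4, 22, 23], [3]⟩, ⟨[5, 17, 48], [3, 22, 23, 33], [5]⟩,
  ⟨[0, 1, 2, 5, 17], [3, 6], [2]⟩, ⟨[2, 3, 11, 51], [4, 22, 26], [2]⟩,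
  ⟨[5, 17, 51], [0, 3, 22, 23], [5]⟩, ⟨[17, 48], [3, 4, 22, 23, 33], []⟩,
  ⟨[0, 1, 2, 3, 4, 5], [6], [3]⟩, ⟨[2, 5, 17, 51], [3, 22, 26], [2]⟩,
  ⟨[17, 51], [0, 3, 4, 22, 23], []⟩, ⟨[0, 1, 2, 3, 4, 5], [6], [0, 8]⟩,
  ⟨[2, 3, 4, 5, 51], [22, 26], [3]⟩, ⟨[2, 17, 51], [3, 4, 22, 26], [2]⟩,
  ⟨[1, 2, 3, 4, 5, 33], [26], [5]⟩, ⟨[2, 3, 11, 51], [4, 22, 26], [3]⟩,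
  ⟨[1, 2, 3, 11, 33], [4, 26], [22]⟩, ⟨[2, 5, 17, 51], [3, 22, 26], [10]⟩,
  ⟨[1, 2, 5, 17, 33], [3, 26], [22]⟩, ⟨[1, 2, 3, 4, 5, 33], [26], [3]⟩,
  ⟨[1, 2, 3, 4, 5, 33], [26], [1, 9]⟩, ⟨[0, 1, 2, 3, 4, 5, 6], [], [26]⟩]

/-- the pairs with the atom 19 -/
def p19 : List RG.PD := [
  ⟨[0, 14], [1, 2, 4, 5, 6], []⟩, ⟨[1, 13], [0, 2, 4, 5, 6], []⟩, ⟨[2, 19], [1, 4, 5, 6, 7], []⟩,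
  ⟨[1, 3, 13], [0, 4, 5, 6], [1]⟩, ⟨[4, 25], [0, 1, 2, 5, 6], []⟩,
  ⟨[5, 19], [0, 1, 2, 6, 18], []⟩, ⟨[6, 19], [0, 1, 2, 4, 12], []⟩,
  ⟨[7, 8], [0, 1, 4, 5, 6], []⟩, ⟨[7, 8], [0, 1, 4, 5, 6], []⟩, ⟨[0, 1, 9], [2, 4, 5, 6], [0]⟩,
  ⟨[1, 3, 4, 20], [0, 5, 6], [1]⟩, ⟨[11, 32], [0, 1, 2, 4, 6], []⟩,
  ⟨[12, 19], [0, 1, 2, 5, 18], []⟩, ⟨[1, 13], [0, 2, 4, 5, 6], []⟩,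
  ⟨[0, 14], [1, 2, 4, 5, 6], []⟩, ⟨[4, 7, 15], [0, 1, 5, 6], [4]⟩,
  ⟨[0, 1, 4, 16], [2, 5, 6], [0]⟩, ⟨[1, 3, 11, 26], [0, 4, 6], [1]⟩,
  ⟨[18, 38], [0, 1, 2, 4, 5], []⟩, ⟨[], [], []⟩, ⟨[1, 4, 20], [0, 2, 5, 6], [1]⟩,
  ⟨[0, 4, 21], [1, 2, 5, 6], [0]⟩, ⟨[7, 8, 11], [0, 1, 4, 6], [7]⟩,
  ⟨[0, 1, 9, 11], [2, 4, 6], [0]⟩, ⟨[1, 3, 13, 18], [0, 4, 5], [1]⟩,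
  ⟨[4, 25], [0, 1, 2, 5, 6], []⟩, ⟨[1, 11, 26], [0, 2, 4, 6], [1]⟩,
  ⟨[0, 1, 2, 3, 4], [5, 6], [0]⟩, ⟨[0, 11, 28], [1, 2, 4, 6], [0]⟩,
  ⟨[7, 8, 18], [0, 1, 4, 5], [7]⟩, ⟨[0, 1, 9, 18], [2, 4, 5], [0]⟩,
  ⟨[1, 3, 4, 20], [0, 5, 6], [8]⟩, ⟨[11, 32], [0, 1, 2, 4, 6], []⟩,
  ⟨[1, 13, 18], [0, 2, 4, 5], [1]⟩, ⟨[0, 1, 2, 3, 11], [4, 6], [0]⟩,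
  ⟨[0, 14, 18], [1, 2, 4, 5], [0]⟩, ⟨[0, 1, 4, 16], [2, 5, 6], [13]⟩,
  ⟨[1, 3, 11, 26], [0, 4, 6], [8]⟩, ⟨[18, 38], [0, 1, 2, 4, 5], []⟩,
  ⟨[0, 1, 2, 3, 4, 5], [6], [0]⟩, ⟨[0, 1, 2, 3, 18], [4, 5], [0]⟩,
  ⟨[0, 1, 9, 11], [2, 4, 6], [13]⟩, ⟨[1, 3, 4, 5, 26], [0, 6], [4]⟩,
  ⟨[1, 3, 13, 18], [0, 4, 5], [8]⟩, ⟨[0, 1, 2, 3, 4, 12], [5], [0]⟩,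
  ⟨[0, 1, 4, 5, 23], [2, 6], [4]⟩, ⟨[0, 1, 9, 18], [2, 4, 5], [13]⟩,
  ⟨[1, 3, 4, 12, 33], [0, 5], [4]⟩, ⟨[0, 1, 2, 3, 6, 18], [4], [0]⟩,
  ⟨[0, 1, 2, 3, 4, 5], [6], [0, 3]⟩, ⟨[0, 1, 4, 12, 30], [2, 5], [4]⟩,
  ⟨[1, 3, 6, 13, 18], [0, 4], [11]⟩, ⟨[0, 1, 2, 3, 4, 5], [6], [8]⟩,
  ⟨[0, 1, 2, 3, 4, 12], [5], [0, 3]⟩, ⟨[0, 1, 6, 9, 18], [2, 4], [11]⟩,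
  ⟨[0, 1, 2, 3, 4, 12], [5], [8]⟩, ⟨[0, 1, 2, 3, 6, 18], [4], [0, 3]⟩,
  ⟨[0, 1, 2, 3, 6, 18], [4], [8]⟩, ⟨[0, 1, 2, 3, 4, 5, 6], [], [4]⟩,
  ⟨[0, 1, 2, 3, 4, 5, 6], [], [4]⟩, ⟨[0, 1, 2, 3, 4, 5, 6], [], [0, 3]⟩,
  ⟨[0, 1, 2, 3, 4, 5, 6], [], [0, 9]⟩, ⟨[0, 1, 2, 3, 4, 5, 6], [], [38]⟩]

end Pool.Agent.SPH.E7
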